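import Pool.Agent.W120.WM.Defs
import Pool.Agent.H370R2.Rect

/-!
# WM-RES: residue theorem on a rectangle
-/

set_option autoImplicit false

open MeasureTheory Filter Topology Set

namespace Pool.Agent.W565.WM

open Pool.Agent.W120.WM H370

theorem dds {f : ℂ → ℂ} (hf : Differentiable ℂ f) (p : ℂ) : Differentiable ℂ (dslope f p) := by
  have := (Complex.differentiableOn_dslope (s := Set.univ) (c := p) (f := f) univ_mem).2
    hf.differentiableOn
  exact differentiableOn_univ.1 this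

theorem factor {f : ℂ → ℂ} {p : ℂ} (h0 : f p = 0) (s : ℂ) : f s = (s - p) * dslope f p s := by
  have h := sub_smul_dslope f p s
  rw [smul_eq_mul, h0, sub_zero] at h
  exact h.symm

theorem aux (a b c d : ℝ) (hab : a < b) (hcd : c < d) : ∀ (Z : Finset ℂ) (F g : ℂ → ℂ),
    Differentiable ℂ F → Differentiable ℂ g →
    (∀ s ∈ Icc a b ×ℂ Icc c d, F s = 0 ↔ s ∈ Z) →
    (∀ ρ ∈ Z, ρ ∈ Ioo a b ×ℂ Ioo c d ∧ deriv F ρ ≠ 0) →
    RI a b c d (fun s => g s / F s) = 2 * Real.pi * Complex.I * ∑ ρ ∈ Z, g ρ / deriv F ρ := by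
  classical
  intro Z
  induction Z using Finset.induction_on with
  | empty =>
    intro F g hF hg hz _
    rw [Finset.sum_empty, mul_zero]
    apply RI_zero hab.le hcd.le
    apply hg.differentiableOn.div hF.differentiableOn
    intro s hs h0
    have h1 := (hz s hs).1 h0
    simp at h1
  | insert ρ Z hρZ ih =>
    intro F g hF hg hz hd
    obtain ⟨hρ, hρ'⟩ := hd ρ (Finset.mem_insert_self _ _)
    have hρR : ρ ∈ Icc a b ×ℂ Icc c d := ⟨⟨hρ.1.1.le, hρ.1.2.le⟩, ⟨hρ.2.1.le, hρ.2.2.le⟩⟩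
    have hFρ : F ρ = 0 := (hz ρ hρR).2 (Finset.mem_insert_self _ _)
    obtain ⟨G, hGdef⟩ : ∃ G : ℂ → ℂ, G = dslope F ρ := ⟨_, rfl⟩
    have hG : Differentiable ℂ G := by
      rw [hGdef]
      exact dds hF ρ
    have hFG : ∀ s, F s = (s - ρ) * G s := by
      intro s
      rw [hGdef]
      exact factor hFρ s
    have hGρ : G ρ = deriv F ρ := by rw [hGdef, dslope_same]
    have hGρ0 : G ρ ≠ 0 := by rw [hGρ]; exact hρ'
    have hzG : ∀ s ∈ Icc a b ×ℂ Icc c d, G s = 0 ↔ s ∈ Z := by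
      intro s hs
      by_cases hsρ : s = ρ
      · rw [hsρ]
        exact ⟨fun h => absurd h hGρ0, fun h => absurd h hρZ⟩
      · have h1 := hz s hs
        rw [hFG s, mul_eq_zero, Finset.mem_insert] at h1
        constructor
        · intro h
          exact (h1.1 (Or.inr h)).resolve_left hsρ
        · intro h
          exact (h1.2 (Or.inr h)).resolve_left (sub_ne_zero.2 hsρ)
    have hIoo : ∀ σ ∈ Z, σ ∈ Ioo a b ×ℂ Ioo c d := fun σ hσ =>
      (hd σ (Finset.mem_insert_of_mem hσ)).1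
    have hG0 : ∀ σ ∈ Z, G σ = 0 := by
      intro σ hσ
      have h1 := hIoo σ hσ
      exact (hzG σ ⟨⟨h1.1.1.le, h1.1.2.le⟩, ⟨h1.2.1.le, h1.2.2.le⟩⟩).2 hσ
    have hder : ∀ σ ∈ Z, deriv F σ = (σ - ρ) * deriv G σ := by
      intro σ hσ
      have h1 : HasDerivAt (fun s => (s - ρ) * G s) (1 * G σ + (σ - ρ) * deriv G σ) σ :=
        ((hasDerivAt_id σ).sub_const ρ).mul (hG σ).hasDerivAt
      have h2 : F = fun s => (s - ρ) * G s := funext hFG
      rw [h2, h1.deriv, hG0 σ hσ]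
      ring
    have hdG : ∀ σ ∈ Z, σ ∈ Ioo a b ×ℂ Ioo c d ∧ deriv G σ ≠ 0 := by
      intro σ hσ
      refine ⟨hIoo σ hσ, fun h0 => ?_⟩
      apply (hd σ (Finset.mem_insert_of_mem hσ)).2
      rw [hder σ hσ, h0, mul_zero]
    obtain ⟨k, hk⟩ : ∃ k : ℂ, k = g ρ / G ρ := ⟨_, rfl⟩
    have hkd : Differentiable ℂ (fun s => g s - k * G s) := hg.sub (hG.const_mul k)
    have hk0 : (fun s => g s - k * G s) ρ = 0 := by
      simp only
      rw [hk, div_mul_cancel₀ _ hGρ0, sub_self]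
    obtain ⟨g2, hg2⟩ : ∃ g2 : ℂ → ℂ, g2 = dslope (fun s => g s - k * G s) ρ := ⟨_, rfl⟩
    have hg2d : Differentiable ℂ g2 := by
      rw [hg2]
      exact dds hkd ρ
    have hfac : ∀ s, g s - k * G s = (s - ρ) * g2 s := by
      intro s
      rw [hg2]
      exact factor (f := fun s => g s - k * G s) (p := ρ) hk0 s
    have hBρ : ∀ s ∈ Bd a b c d, s ≠ ρ := fun s hs he => Bd_not_Ioo hs (he ▸ hρ)
    have hBG : ∀ s ∈ Bd a b c d, G s ≠ 0 := by
      intro s hs h0
      exact Bd_not_Ioo hs (hIoo s ((hzG s (Bd_sub hab.le hcd.le hs)).1 h0))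
    have e1 : RI a b c d (fun s => g s / F s) =
        RI a b c d (fun s => g2 s / G s + k * (s - ρ)⁻¹) := by
      apply RI_congr hab.le hcd.le
      intro s hs
      have h1 := sub_ne_zero.2 (hBρ s hs)
      have h2 := hBG s hs
      have h3 : g s = (s - ρ) * g2 s + k * G s := by
        rw [← hfac s]
        ring
      rw [hFG s, h3]
      field_simp
    have c1 : ContinuousOn (fun s => g2 s / G s) (Bd a b c d) :=
      hg2d.continuous.continuousOn.div hG.continuous.continuousOn hBG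
    have c2 : ContinuousOn (fun s : ℂ => (s - ρ)⁻¹) (Bd a b c d) := by
      apply ContinuousOn.inv₀ (by fun_prop)
      intro s hs
      exact sub_ne_zero.2 (hBρ s hs)
    rw [e1, RI_add hab.le hcd.le (g := fun s => k * (s - ρ)⁻¹) c1 (continuousOn_const.mul c2),
      RI_const_mul, RI_inv hρ, ih G g2 hG hg2d hzG hdG, Finset.sum_insert hρZ]
    have e2 : ∑ σ ∈ Z, g2 σ / deriv G σ = ∑ σ ∈ Z, g σ / deriv F σ := by
      refine Finset.sum_congr rfl fun σ hσ => ?_
      have h1 : σ - ρ ≠ 0 := by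
        rw [sub_ne_zero]
        rintro rfl
        exact hρZ hσ
      have h2 := hfac σ
      rw [hG0 σ hσ, mul_zero, sub_zero] at h2
      rw [hder σ hσ, h2, mul_div_mul_left _ _ h1]
    rw [e2, hk, hGρ]
    ring

theorem t_res : T_RES := by
  intro F g Z a b c d hab hcd hF hg hz hd
  have h := aux a b c d hab hcd Z F g hF hg hz hd
  unfold RI at h
  exact h

end Pool.Agent.W565.WM
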